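import Pool.Agent.Q263.HR.Geo

/-!
# Project HR (helper263), job FC: uniform continuity of a smooth one-form in the ambient space
-/

set_option autoImplicit false
set_option linter.unusedSectionVars false

open scoped Manifold ContDiff Topology
open Set Filter Pool.Agent.H721R2

namespace Q263.HR

universe u v w

section

variable {E : Type u} [NormedAddCommGroup E] [NormedSpace ℝ E] [FiniteDimensional ℝ E]
  {M : Type v} [MetricSpace M] [CompactSpace M] [ChartedSpace E M] [IsManifold 𝓘(ℝ, E) ∞ M]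
  {F : Type w} [NormedAddCommGroup F] [NormedSpace ℝ F]

theorem fc_ah {β : M → E →L[ℝ] ℝ}
    (hβ : Pool.Agent.Helper186.SmoothForm (I := 𝓘(ℝ, E)) (M := M) β) (x₀ : M) :
    ContinuousAt (Q71.WN.ah β x₀) (extChartAt 𝓘(ℝ, E) x₀ x₀) :=
  ((Pool.Agent.Helper186.contDiffOn_chartForm hβ x₀).continuousOn).continuousAt
    ((isOpen_extChartAt_target x₀).mem_nhds (mem_extChartAt_target x₀))

theorem fc_local [IsManifold 𝓘(ℝ, E) 1 M] (e : M → F) (he : ContMDiff 𝓘(ℝ, E) 𝓘(ℝ, F) 1 e)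
    (hinj : ∀ x, Function.Injective (dm E e x)) {β : M → E →L[ℝ] ℝ}
    (hβ : Pool.Agent.Helper186.SmoothForm (I := 𝓘(ℝ, E)) (M := M) β) (x₀ : M) :
    (∃ C : ℝ, ∀ᶠ x in 𝓝 x₀, ∀ v : E, |β x v| ≤ C * ‖dm E e x v‖) ∧
    ∀ η > 0, ∃ W ∈ 𝓝 x₀, ∀ x ∈ W, ∀ y ∈ W, ∀ v : E, ∃ w : E,
      ‖dm E e x v - dm E e y w‖ ≤ η * ‖dm E e x v‖ ∧ |β x v - β y w| ≤ η * ‖dm E e x v‖ := by
  obtain ⟨⟨C, hC, h1⟩, -⟩ := local_all e he hinj e he x₀
  have hah := fc_ah hβ x₀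
  have hφ : ContinuousAt (extChartAt 𝓘(ℝ, E) x₀) x₀ := continuousAt_extChartAt x₀
  have hsrc : (extChartAt 𝓘(ℝ, E) x₀).source ∈ 𝓝 x₀ :=
    (isOpen_extChartAt_source (I := 𝓘(ℝ, E)) x₀).mem_nhds (mem_extChartAt_source x₀)
  have hc : ContinuousAt (fun x => Q71.WN.ah β x₀ (extChartAt 𝓘(ℝ, E) x₀ x)) x₀ :=
    ContinuousAt.comp (f := fun x => extChartAt 𝓘(ℝ, E) x₀ x) hah hφ
  constructor
  · refine ⟨(‖Q71.WN.ah β x₀ (extChartAt 𝓘(ℝ, E) x₀ x₀)‖ + 1) * C, ?_⟩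
    filter_upwards [h1, hsrc, hc.norm.eventually (gt_mem_nhds (lt_add_one _))] with x hx hxs hxn v
    rw [← Q71.WN.Dat.ah_eq (β := β) hxs v, ← Real.norm_eq_abs]
    refine (ContinuousLinearMap.le_opNorm _ _).trans ?_
    calc _ ≤ (‖Q71.WN.ah β x₀ (extChartAt 𝓘(ℝ, E) x₀ x₀)‖ + 1) * (C * ‖dm E e x v‖) :=
          mul_le_mul hxn.le (hx v).1 (norm_nonneg _) (by positivity)
      _ = _ := by ring
  · intro η hη
    set η' : ℝ := η / (2 * C) with hη'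
    have hη'0 : 0 < η' := by positivity
    have hη'e : 2 * η' * C = η := by rw [hη']; field_simp
    obtain ⟨r, hr, -, h2, -⟩ := hatMap_local e he x₀ η' hη'0
    have h3 := hφ.preimage_mem_nhds (Metric.ball_mem_nhds _ hr)
    have h4 := Metric.continuousAt_iff'.mp hc η' hη'0
    have hW : {x : M | (∀ v : E, ‖dm E (extChartAt 𝓘(ℝ, E) x₀) x v‖ ≤ C * ‖dm E e x v‖) ∧
        x ∈ (extChartAt 𝓘(ℝ, E) x₀).source ∧
        extChartAt 𝓘(ℝ, E) x₀ x ∈ Metric.ball (extChartAt 𝓘(ℝ, E) x₀ x₀) r ∧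
        dist (Q71.WN.ah β x₀ (extChartAt 𝓘(ℝ, E) x₀ x))
          (Q71.WN.ah β x₀ (extChartAt 𝓘(ℝ, E) x₀ x₀)) < η'} ∈ 𝓝 x₀ := by
      filter_upwards [h1, hsrc, h3, h4] with x a1 a2 a3 a4
      exact ⟨fun v => (a1 v).1, a2, a3, a4⟩
    refine ⟨_, hW, ?_⟩
    rintro x ⟨hx1, hx2, hx3, hx4⟩ y ⟨hy1, hy2, hy3, hy4⟩ v
    obtain ⟨A, hA⟩ := isInvertible_mfderiv_extChartAt (I := 𝓘(ℝ, E)) hy2
    set c : E := dm E (extChartAt 𝓘(ℝ, E) x₀) x v with hcdef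
    have hAv : dm E (extChartAt 𝓘(ℝ, E) x₀) y (A.symm c) = c := by
      show mfderiv 𝓘(ℝ, E) 𝓘(ℝ, E) (extChartAt 𝓘(ℝ, E) x₀) y (A.symm c) = c
      rw [← hA]; exact A.apply_symm_apply c
    have hcn : ‖c‖ ≤ C * ‖dm E e x v‖ := hx1 v
    refine ⟨A.symm c, ?_, ?_⟩
    · rw [hatMap_mfderiv e he x₀ x hx2 v, hatMap_mfderiv e he x₀ y hy2 (A.symm c), hAv, ← hcdef]
      have e1 : fderiv ℝ (hatMap e x₀) (extChartAt 𝓘(ℝ, E) x₀ x) c -
          fderiv ℝ (hatMap e x₀) (extChartAt 𝓘(ℝ, E) x₀ y) c =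
          (fderiv ℝ (hatMap e x₀) (extChartAt 𝓘(ℝ, E) x₀ x) -
            fderiv ℝ (hatMap e x₀) (extChartAt 𝓘(ℝ, E) x₀ x₀)) c -
          (fderiv ℝ (hatMap e x₀) (extChartAt 𝓘(ℝ, E) x₀ y) -
            fderiv ℝ (hatMap e x₀) (extChartAt 𝓘(ℝ, E) x₀ x₀)) c := by
        simp only [sub_apply]; abel
      have h7 := (ContinuousLinearMap.le_opNorm (fderiv ℝ (hatMap e x₀)
        (extChartAt 𝓘(ℝ, E) x₀ x) - fderiv ℝ (hatMap e x₀) (extChartAt 𝓘(ℝ, E) x₀ x₀)) c).trans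
          (mul_le_mul_of_nonneg_right (h2 _ hx3) (norm_nonneg _))
      have h8 := (ContinuousLinearMap.le_opNorm (fderiv ℝ (hatMap e x₀)
        (extChartAt 𝓘(ℝ, E) x₀ y) - fderiv ℝ (hatMap e x₀) (extChartAt 𝓘(ℝ, E) x₀ x₀)) c).trans
          (mul_le_mul_of_nonneg_right (h2 _ hy3) (norm_nonneg _))
      rw [e1]
      refine (norm_sub_le _ _).trans ?_
      have h9 : fderiv ℝ (hatMap e x₀) (extChartAt 𝓘(ℝ, E) x₀ x) c = dm E e x v :=
        (hatMap_mfderiv e he x₀ x hx2 v).symm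
      rw [h9]
      calc _ ≤ η' * ‖c‖ + η' * ‖c‖ := add_le_add h7 h8
        _ ≤ η' * (C * ‖dm E e x v‖) + η' * (C * ‖dm E e x v‖) := by gcongr
        _ = (2 * η' * C) * ‖dm E e x v‖ := by ring
        _ = _ := by rw [hη'e]
    · have e1 : β x v = Q71.WN.ah β x₀ (extChartAt 𝓘(ℝ, E) x₀ x) c :=
        (Q71.WN.Dat.ah_eq (β := β) hx2 v).symm
      have e2 : β y (A.symm c) = Q71.WN.ah β x₀ (extChartAt 𝓘(ℝ, E) x₀ y) c := by
        have := (Q71.WN.Dat.ah_eq (β := β) hy2 (A.symm c)).symm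
        rw [this]
        congr 1
      rw [e1, e2, ← Real.norm_eq_abs]
      have e3 : Q71.WN.ah β x₀ (extChartAt 𝓘(ℝ, E) x₀ x) c -
          Q71.WN.ah β x₀ (extChartAt 𝓘(ℝ, E) x₀ y) c =
          (Q71.WN.ah β x₀ (extChartAt 𝓘(ℝ, E) x₀ x) -
            Q71.WN.ah β x₀ (extChartAt 𝓘(ℝ, E) x₀ x₀)) c -
          (Q71.WN.ah β x₀ (extChartAt 𝓘(ℝ, E) x₀ y) -
            Q71.WN.ah β x₀ (extChartAt 𝓘(ℝ, E) x₀ x₀)) c := by
        simp only [sub_apply]; abel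
      rw [dist_eq_norm] at hx4 hy4
      have h7 := (ContinuousLinearMap.le_opNorm (Q71.WN.ah β x₀ (extChartAt 𝓘(ℝ, E) x₀ x) -
            Q71.WN.ah β x₀ (extChartAt 𝓘(ℝ, E) x₀ x₀)) c).trans
          (mul_le_mul_of_nonneg_right hx4.le (norm_nonneg _))
      have h8 := (ContinuousLinearMap.le_opNorm (Q71.WN.ah β x₀ (extChartAt 𝓘(ℝ, E) x₀ y) -
            Q71.WN.ah β x₀ (extChartAt 𝓘(ℝ, E) x₀ x₀)) c).trans
          (mul_le_mul_of_nonneg_right hy4.le (norm_nonneg _))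
      rw [e3]
      refine (norm_sub_le _ _).trans ?_
      calc _ ≤ η' * ‖c‖ + η' * ‖c‖ := add_le_add h7 h8
        _ ≤ η' * (C * ‖dm E e x v‖) + η' * (C * ‖dm E e x v‖) := by gcongr
        _ = (2 * η' * C) * ‖dm E e x v‖ := by ring
        _ = _ := by rw [hη'e]

end

theorem fc : S_FC.{u, v, w} := by
  intro E _ _ _ M _ _ _ _ F _ _ e hE β hβ
  have : IsManifold 𝓘(ℝ, E) 1 M := IsManifold.of_le (n := ∞) (by simp)
  have he : ContMDiff 𝓘(ℝ, E) 𝓘(ℝ, F) 1 e := hE.smooth.of_le (by simp)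
  have hinj := hE.inj
  obtain ⟨B, hB, h1⟩ := exists_uniform_const (M := M)
    (fun C x => ∀ v : E, |β x v| ≤ C * ‖dm E e x v‖)
    (fun C C' x hCC' h v => (h v).trans (mul_le_mul_of_nonneg_right hCC' (norm_nonneg _)))
    (fun x₀ => (fc_local e he hinj hβ x₀).1)
  refine ⟨B, hB, h1, ?_⟩
  intro η hη
  set η' : ℝ := η / (1 + B) with hη'
  have hη'0 : 0 < η' := by positivity
  have hη'e : η' + B * η' = η := by rw [hη']; field_simp
  obtain ⟨r, hr, h2⟩ := exists_uniform_radius (M := M)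
    (fun x y => ∀ v : E, ∃ w : E, ‖dm E e x v - dm E e y w‖ ≤ η' * ‖dm E e x v‖ ∧
      |β x v - β y w| ≤ η' * ‖dm E e x v‖)
    (fun x₀ => (fc_local e he hinj hβ x₀).2 η' hη'0)
  refine ⟨r, hr, fun x y hxy v w => ?_⟩
  obtain ⟨w', hw1, hw2⟩ := h2 x y hxy v
  have a1 : |β x v - β y w| ≤ |β x v - β y w'| + |β y (w' - w)| := by
    have : β x v - β y w = (β x v - β y w') + β y (w' - w) := by
      rw [map_sub]; ring
    rw [this]
    exact abs_add_le _ _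
  have a2 := h1 y (w' - w)
  have a3 : ‖dm E e y (w' - w)‖ ≤ η' * ‖dm E e x v‖ + ‖dm E e x v - dm E e y w‖ := by
    rw [map_sub]
    have := norm_sub_le (dm E e x v - dm E e y w) (dm E e x v - dm E e y w')
    rw [sub_sub_sub_cancel_left] at this
    linarith
  have a4 : B * ‖dm E e y (w' - w)‖ ≤
      B * (η' * ‖dm E e x v‖ + ‖dm E e x v - dm E e y w‖) := mul_le_mul_of_nonneg_left a3 hB.le
  calc |β x v - β y w| ≤ η' * ‖dm E e x v‖ +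
        B * (η' * ‖dm E e x v‖ + ‖dm E e x v - dm E e y w‖) := by linarith
    _ = (η' + B * η') * ‖dm E e x v‖ + B * ‖dm E e x v - dm E e y w‖ := by ring
    _ = _ := by rw [hη'e]

end Q263.HR
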