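import Pool.Agent.Q263.HR.Geo

/-!
# Project HR (helper263), job TR: uniform local linearisation
-/

set_option autoImplicit false
set_option linter.unusedSectionVars false

open scoped Manifold ContDiff Topology
open Set Filter Pool.Agent.H721R2

namespace Q263.HR

universe u v w

section

variable {E : Type u} [NormedAddCommGroup E] [NormedSpace ℝ E] [FiniteDimensional ℝ E]
  {M : Type v} [MetricSpace M] [CompactSpace M] [ChartedSpace E M] [IsManifold 𝓘(ℝ, E) 1 M]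
  {F : Type w} [NormedAddCommGroup F] [NormedSpace ℝ F]

/-- the three uniform facts -/
theorem tr_unif (e : M → F) (he : ContMDiff 𝓘(ℝ, E) 𝓘(ℝ, F) 1 e)
    (hinj : ∀ x, Function.Injective (dm E e x)) (G : M → M)
    (hG : ContMDiff 𝓘(ℝ, E) 𝓘(ℝ, E) 1 G) (η : ℝ) (hη : 0 < η) : ∃ r > 0,
    (∀ x y : M, dist x y < r → ∃ v : E, ‖e y - e x - dm E e x v‖ ≤ η * ‖e y - e x‖ ∧
      ‖e (G y) - e (G x) - dm E e (G x) (dg E G x v)‖ ≤ η * ‖e y - e x‖) ∧
    (∀ x : M, ∀ v : E, ‖dm E e x v‖ < r → ∃ y, ‖e y - e x - dm E e x v‖ ≤ η * ‖dm E e x v‖) ∧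
    (∀ x y : M, dist x y < r → ∀ v : E, ∃ w : E,
      ‖dm E e x v - dm E e y w‖ ≤ η * ‖dm E e x v‖ ∧
      ‖dm E e (G x) (dg E G x v) - dm E e (G y) (dg E G y w)‖ ≤ η * ‖dm E e x v‖) := by
  have h1 : ∃ r > 0, ∀ x y, dist x y < r → ∃ v : E,
      ‖e y - e x - dm E e x v‖ ≤ η * ‖e y - e x‖ ∧
      ‖e (G y) - e (G x) - dm E e (G x) (dg E G x v)‖ ≤ η * ‖e y - e x‖ := by
    apply exists_uniform_radius
    intro x₀
    obtain ⟨-, h1⟩ := local_all e he hinj (e ∘ G) (he.comp hG) x₀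
    obtain ⟨W, hW, r, hr, h2, -, -⟩ := h1 η hη
    refine ⟨W, hW, fun x hx y hy => ?_⟩
    obtain ⟨v, h3, h4⟩ := h2 x hx y hy
    rw [dm_comp e he _ hG] at h4
    exact ⟨v, h3, h4⟩
  have h2 : ∃ r > 0, ∀ x : M, ∀ v : E, ‖dm E e x v‖ < r →
      ∃ y, ‖e y - e x - dm E e x v‖ ≤ η * ‖dm E e x v‖ := by
    apply exists_uniform_small (fun r x => ∀ v : E, ‖dm E e x v‖ < r →
      ∃ y, ‖e y - e x - dm E e x v‖ ≤ η * ‖dm E e x v‖)
    · intro C C' x hCC' hx v hv
      exact hx v (by linarith)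
    · intro x₀
      obtain ⟨-, h1⟩ := local_all e he hinj e he x₀
      obtain ⟨W, hW, r, hr, -, h2, -⟩ := h1 η hη
      refine ⟨r, hr, ?_⟩
      filter_upwards [hW] with x hx
      exact h2 x hx
  have h3 : ∃ r > 0, ∀ x y, dist x y < r → ∀ v : E, ∃ w : E,
      ‖dm E e x v - dm E e y w‖ ≤ η * ‖dm E e x v‖ ∧
      ‖dm E e (G x) (dg E G x v) - dm E e (G y) (dg E G y w)‖ ≤ η * ‖dm E e x v‖ := by
    apply exists_uniform_radius
    intro x₀
    obtain ⟨-, h1⟩ := local_all e he hinj (e ∘ G) (he.comp hG) x₀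
    obtain ⟨W, hW, r, hr, -, -, h2⟩ := h1 η hη
    refine ⟨W, hW, fun x hx y hy v => ?_⟩
    obtain ⟨w, h3, h4⟩ := h2 x hx y hy v
    rw [dm_comp e he _ hG, dm_comp e he _ hG] at h4
    exact ⟨w, h3, h4⟩
  obtain ⟨r1, hr1, h1⟩ := h1
  obtain ⟨r2, hr2, h2⟩ := h2
  obtain ⟨r3, hr3, h3⟩ := h3
  exact ⟨min r1 (min r2 r3), lt_min hr1 (lt_min hr2 hr3),
    fun x y hxy => h1 x y (lt_of_lt_of_le hxy (min_le_left _ _)),
    fun x v hv => h2 x v (lt_of_lt_of_le hv ((min_le_right _ _).trans (min_le_left _ _))),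
    fun x y hxy => h3 x y (lt_of_lt_of_le hxy ((min_le_right _ _).trans (min_le_right _ _)))⟩

end

theorem tr : S_TR.{u, v, w} := by
  intro E _ _ _ M _ _ _ _ F _ _ e hE G hG η hη
  have : IsManifold 𝓘(ℝ, E) 1 M := IsManifold.of_le (n := ∞) (by simp)
  have he : ContMDiff 𝓘(ℝ, E) 𝓘(ℝ, F) 1 e := hE.smooth.of_le (by simp)
  have hinj := hE.inj
  obtain ⟨Bg, hBg, hB⟩ := global_bound e he hinj G hG
  set η' : ℝ := min 1 (η / (5 + 6 * Bg)) with hη'
  have hη'0 : 0 < η' := lt_min one_pos (by positivity)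
  have hη'1 : η' ≤ 1 := min_le_left _ _
  have hη'2 : η' * (5 + 6 * Bg) ≤ η := by
    have : η' ≤ η / (5 + 6 * Bg) := min_le_right _ _
    rwa [le_div_iff₀ (by positivity)] at this
  have hη'3 : 5 * η' ≤ η := by nlinarith [mul_pos hη'0 hBg]
  obtain ⟨r, hr, h1, h2, h3⟩ := tr_unif e he hinj G hG η' hη'0
  have hd : ∀ x y, dist x y = ‖e y - e x‖ := fun x y => by rw [hE.iso, norm_sub_rev]
  refine ⟨r / 4, by positivity, ?_, ?_, ?_⟩
  · intro x y y' hxy hxy'
    have hyy' : dist y y' < r := by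
      have := dist_triangle_left y y' x
      linarith
    obtain ⟨v₁, hv₁, -⟩ := h1 y y' hyy'
    obtain ⟨v, hv, -⟩ := h3 y x (by rw [dist_comm]; linarith) v₁
    refine ⟨v, ?_⟩
    rw [hd]
    set N := ‖e y' - e y‖ with hN
    have hN0 : 0 ≤ N := norm_nonneg _
    have a1 : ‖dm E e y v₁‖ ≤ 2 * N := by
      have := norm_sub_norm_le (dm E e y v₁) (e y' - e y)
      rw [norm_sub_rev] at hv₁
      nlinarith
    have a2 : ‖e y' - e y - dm E e x v‖ ≤
        ‖e y' - e y - dm E e y v₁‖ + ‖dm E e y v₁ - dm E e x v‖ := by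
      have := norm_add_le (e y' - e y - dm E e y v₁) (dm E e y v₁ - dm E e x v)
      rwa [sub_add_sub_cancel] at this
    have a3 : η' * ‖dm E e y v₁‖ ≤ η' * (2 * N) := mul_le_mul_of_nonneg_left a1 hη'0.le
    nlinarith
  · intro x y hxy v hv
    set N := ‖dm E e x v‖ with hN
    have hN0 : 0 ≤ N := norm_nonneg _
    have e1 : η' * N ≤ N := by nlinarith
    obtain ⟨w, hw1, hw2⟩ := h3 x y (by linarith) v
    have b1 : ‖dm E e y w‖ ≤ 2 * N := by
      have := norm_sub_norm_le (dm E e y w) (dm E e x v)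
      rw [norm_sub_rev] at hw1
      linarith
    obtain ⟨y', hy'⟩ := h2 y w (by linarith)
    have b2 : ‖e y' - e y - dm E e y w‖ ≤ 2 * η' * N := by
      refine hy'.trans ?_
      nlinarith
    have b3 : ‖e y' - e y - dm E e x v‖ ≤ 3 * η' * N := by
      have := norm_add_le (e y' - e y - dm E e y w) (dm E e y w - dm E e x v)
      rw [sub_add_sub_cancel, norm_sub_rev (dm E e y w)] at this
      linarith
    have b4 : ‖e y' - e y‖ ≤ 4 * N := by
      have := norm_sub_norm_le (e y' - e y) (dm E e x v)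
      nlinarith
    obtain ⟨v', hv1, hv2⟩ := h1 y y' (by rw [hd]; nlinarith)
    have b5 : ‖e y' - e y - dm E e y v'‖ ≤ 4 * η' * N := by nlinarith
    have b6 : ‖e (G y') - e (G y) - dm E e (G y) (dg E G y v')‖ ≤ 4 * η' * N := by nlinarith
    have b7 : ‖dm E e y (v' - w)‖ ≤ 6 * η' * N := by
      rw [map_sub]
      have := norm_sub_le (e y' - e y - dm E e y w) (e y' - e y - dm E e y v')
      rw [sub_sub_sub_cancel_left] at this
      linarith
    have b8 : ‖dm E e (G y) (dg E G y (v' - w))‖ ≤ Bg * (6 * η' * N) :=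
      (hB y (v' - w)).trans (mul_le_mul_of_nonneg_left b7 hBg.le)
    rw [map_sub, map_sub] at b8
    refine ⟨y', by nlinarith, ?_⟩
    have b9 : e (G y') - e (G y) - dm E e (G x) (dg E G x v) =
        (e (G y') - e (G y) - dm E e (G y) (dg E G y v')) +
        (dm E e (G y) (dg E G y v') - dm E e (G y) (dg E G y w)) +
        (dm E e (G y) (dg E G y w) - dm E e (G x) (dg E G x v)) := by abel
    rw [b9]
    refine (norm_add₃_le).trans ?_
    rw [norm_sub_rev] at hw2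
    have hw3 : ‖dm E e (G y) (dg E G y w) - dm E e (G x) (dg E G x v)‖ ≤ η' * N := by
      exact hw2
    have : η' * (5 + 6 * Bg) * N ≤ η * N := mul_le_mul_of_nonneg_right hη'2 hN0
    nlinarith
  · intro x y hxy v
    obtain ⟨w, hw1, hw2⟩ := h3 x y (by linarith) v
    have : η' * ‖dm E e x v‖ ≤ η * ‖dm E e x v‖ :=
      mul_le_mul_of_nonneg_right (by linarith) (norm_nonneg _)
    exact ⟨w, hw1.trans this, hw2.trans this⟩

end Q263.HR
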